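import Pool.Agent.U68.AR.Inf

/-!
# Artin groups and the Farrell–Jones class

`C` is any class of groups with the closure properties `ClosedE C` which contains the groups `GL_n(ℚ)`.
All this is published for the class of groups which satisfy the Full Farrell–Jones Conjecture.

`Artin M` is the Artin group of a Coxeter matrix `M`: generators `s ∈ S` and relations
`s t s ⋯ = t s t ⋯` with `M s t` factors on both sides; as usual in Mathlib the label `0` stands for infinity.

(1) **Gluing.** Let `S` be finite and the union of `T1` and `T2`, with all labels infinite between the
complements of `T2` and `T1`. Let the separator `T1 ∩ T2` be a union of pieces such that the generators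
in different pieces commute (label `2`), where each piece

* has at most two elements, or
* has only infinite labels inside, or
* is the image of a *folding*: a retraction `φ` of `S` onto the piece and `1`, which maps the rest of
  the separator to `1`, such that the label of `φ s` and `φ t` divides the label of `s` and `t`, and the labels
  between elements which are mapped to `1` and elements which are not are even or infinite. (For example
  all labels between the piece and its complement are even or infinite.)

If the Artin groups of `T1` and `T2` are in `C` then the Artin group of `S` is in `C`.

(2) **Thin Artin groups.** Suppose that every nonempty finite subset `T` of `S` contains an element `v`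
such that the `t ∈ T` with a finite label `M v t` are at most two in number or have pairwise infinite labels
(all graphs of finite labels without triangles and all `2`-degenerate graphs have this property, for
instance all maximal outerplanar graphs and all series-parallel graphs). If the Artin groups of all
triples with finite labels are in `C` then `Artin M` is in `C`.

Outline of the proof. The Artin group is the amalgam of the groups of `T1` and `T2`. By a theorem of the
starting library it is enough to find a homomorphism to a group in `C` which is injective on the group of
the separator (this also shows that the groups of the separator embed in the groups of `T1` and `T2`).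
For the foldings this is clear. For the other pieces we use the representation on the space with basis
`e_s`, `s ∈ S`, in which `s` acts by `e_t ↦ e_t + c(s,t) e_s`, where `c(s,s) = 1`, `c(s,t) = 0` for the label `2`,
`c(s,t) = 16` for the label infinity, and `c(s,t) = λ`, `c(t,s) = -2 λ` (for an order on `S`), with
`λ = 2 cos (π / m)`, for a finite label `m ≥ 3`. It is defined over a number field, so its image is
isomorphic to a subgroup of some `GL_N(ℚ)`. It is faithful on the Artin group of each pair: modulo the
centre the dihedral Artin group acts on the real projective line, together with the swap of
the generators it is the free product of cyclic groups of order `2` and `m`, which play ping-pong with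
the half-lines; the centre is detected by the determinant. It is faithful on the free group generated by
elements with infinite labels by another ping-pong argument.
-/

set_option autoImplicit false

namespace Pool.Agent.Results.MP_490288_al.ArtinGroups

open Pool.Agent.Y110.FJ Pool.Agent.U68.AR

theorem result (C : ∀ (G : Type) [Group G], Prop) (hC : ClosedE C)
    (hGL : ∀ n : ℕ, C (GL (Fin n) ℚ)) :
    (∀ (S : Type) [Finite S] (M : CoxeterMatrix S) (T1 T2 : Set S), T1 ∪ T2 = Set.univ →
      (∀ s, s ∉ T2 → ∀ t, t ∉ T1 → M s t = 0) →
      Sep (fun s t => M s t) Set.univ (T1 ∩ T2) (T1 ∩ T2) →
      C (Artin fun s t : T1 => M s t) → C (Artin fun s t : T2 => M s t) →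
      C (Artin fun s t => M s t)) ∧
    (∀ (S : Type) (M : CoxeterMatrix S), Thin (fun s t => M s t) →
      (∀ a b c : S, a ≠ b → b ≠ c → a ≠ c → M a b ≠ 0 → M b c ≠ 0 → M a c ≠ 0 →
        C (Artin fun i j : Fin 3 => M (![a, b, c] i) (![a, b, c] j))) →
      C (Artin fun s t => M s t)) := by
  classical
  have hsymm : ∀ (S : Type) (M : CoxeterMatrix S) (s t : S), M s t = M t s :=
    fun S M s t => M.symmetric s t
  refine ⟨?_, ?_⟩
  · intro S _ M T1 T2 hT hinf hsep h1 h2
    have := Fintype.ofFinite S
    refine (c_iff hC (id : S → S) Function.injective_id (fun s t => M s t) Set.univ Set.range_id).2 ?_
    rw [← hT] at hsep ⊢
    refine glue_sep hC hGL (hsymm S M) (fun s => M.diagonal s) (fun s t h => M.off_diagonal s t h)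
      (fun s _ hs' t _ ht' => hinf s hs' t ht') hsep ?_ ?_
    · exact (c_iff hC (Subtype.val : T1 → S) Subtype.val_injective (fun s t => M s t) T1
        Subtype.range_coe).1 h1
    · exact (c_iff hC (Subtype.val : T2 → S) Subtype.val_injective (fun s t => M s t) T2
        Subtype.range_coe).1 h2
  · intro S M hT h3
    exact thin_artin hC hGL (hsymm S M) (fun s => M.diagonal s) (fun s t h => M.off_diagonal s t h)
      hT h3

end Pool.Agent.Results.MP_490288_al.ArtinGroups
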