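import Pool.Agent.U166.OF.Kur

/-!
# Automorphism groups of free products of three groups and the Farrell–Jones class

`C` is any class of groups with the closure properties `ClosedE C` which contains the groups `F ⋊ Z` for
all free groups `F` and all automorphisms of `F` (`FbC C`). All this is published for the class of groups
which satisfy the Full Farrell–Jones Conjecture.

Let `G = M 0 * M 1 * M 2` be the free product of three nontrivial groups which are freely indecomposable
and not infinite cyclic; torsion is allowed, and no finiteness condition is needed. The following are
equivalent:

* the holomorphs `M i ⋊ Aut (M i)` of the three factors are in `C`;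
* `Aut G` is in `C`;
* `Out G` is in `C`;
* `G ⋊ Aut G` is in `C`.

For example `Out G` and `Aut G` are Farrell–Jones groups if each `M i` is a finite group, or `Z^n` with
`n ≥ 2`, or the fundamental group of a closed surface of positive genus.

Outline of the proof.

* For `m ∈ M i` let `pc m` be the automorphism that fixes `M i` and `M (i+2)` and conjugates `M (i+1)` by
  `m⁻¹`. The homomorphism `W : G → Aut G`, `W m = pc m`, is injective modulo inner automorphisms and
  automorphisms of the factors. This is shown by ping-pong: an automorphism that maps the factors onto
  conjugates is represented by a triple `u` with `M i ↦ u i (M i) (u i)⁻¹`; the factor `i` is in the middle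
  of the triple if the reduced words of `(u i)⁻¹ u (i+1)` and `(u i)⁻¹ u (i+2)` do not begin with the
  same syllable from `M i` (for trivial syllables too); two factors are never both in the middle, and `pc m`
  moves a triple in which `i` is not in the middle to one in which `i` is in the middle.
* Every automorphism that maps the factors onto conjugates is a product of an inner automorphism, of
  `W w` for some `w` and of automorphisms of the factors, by induction on the sum of the lengths of
  `(u i)⁻¹ u j`. (Generation: compare Fouxe-Rabinovitch.)
* So the image in `Out G` of the group of these automorphisms is an extension of `∏ Aut (M i)` by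
  the free product `G`, where the automorphisms of the factors act on the kernel `G = W (G)` factor by
  factor, and the preimages in `Aut G` and `G ⋊ Aut G` are extensions by `G` again. The theorem on
  extensions with free product kernels of the starting library applies.
* Let a group `K` act on a tree such that all edge stabilizers are trivial. If `K` is nontrivial, freely
  indecomposable and not infinite cyclic, then it fixes a vertex; here this is proved for groups
  with torsion. Hence every automorphism of `G` permutes the conjugacy classes of the factors.
* Conversely the holomorph of `M i` is embedded in `Out G` by `(m, ψ) ↦ W m * ψ`.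
-/

set_option autoImplicit false

namespace Pool.Agent.Results.MP_490288_al.AutomorphismGroups

open Pool.Agent.Y110.FJ Pool.Agent.U166.OF
open Pool.Agent.R684.FP (FbC)

/-- `G ⋊ Aut G` is in `C` -/
def HolIn (C : ∀ (G : Type) [Group G], Prop) (G : Type) [Group G] : Prop := C (Hol G)

/-- `Aut G` is in `C` -/
def AutIn (C : ∀ (G : Type) [Group G], Prop) (G : Type) [Group G] : Prop := C (MulAut G)

/-- `Out G` is in `C` -/
def OutIn (C : ∀ (G : Type) [Group G], Prop) (G : Type) [Group G] : Prop := C (Out G)

/-- the free product -/
abbrev FP (M : Fin 3 → Type) [∀ i, Group (M i)] : Type := Monoid.CoprodI M

theorem result (C : ∀ (G : Type) [Group G], Prop) (hC : ClosedE C) (hF : FbC C)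
    (M : Fin 3 → Type) [∀ i, Group (M i)] (hM : ∀ i, Ind (M i)) :
    List.TFAE [∀ i, HolIn C (M i), AutIn C (FP M), OutIn C (FP M), HolIn C (FP M)] :=
  equivs hC hF hM

end Pool.Agent.Results.MP_490288_al.AutomorphismGroups
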