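import Pool.Agent.U709.Join

/-!
# Deleting relations of Artin groups and of Shephard groups with even exponents

`C` is any class of groups with the closure properties `ClosedE C`, all of which are known for the
class of the groups which satisfy the Full Farrell-Jones Conjecture.

Let `M` be a Coxeter matrix over a set `B` (as usual in Mathlib the label `0` stands for infinity) and let
`p : B → ℕ`. The group `Sh M p` has the generators `b ∈ B`, the braid relations `b c b ... = c b c ...` with
`M b c` factors on both sides, and the relations `b ^ p b = 1`. For `p = 0` it is the Artin group of `M` and for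
`p = 2` the Coxeter group of `M`. The exponents are admissible (`Adm M p`) if they are even (zero is allowed)
and if `p b = p c` for all `b`, `c` with an odd label. For example `Sh M p` may be a braid group modulo the
relations `σ ^ (2 k) = 1`, or generators of infinite order and involutions may occur together.

(1) **Deleting relations.** If `M` is obtained from `M'` by replacing labels by infinity, the exponents are
admissible for `M'` and the groups `Sh M' p` of the finite subsets of `B` are in `C`, then `Sh M p` is in `C`.
If `B` is finite it is enough that `Sh M' p` is in `C`.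

(2) **Reduction to finite labels.** If the Artin groups of all Coxeter matrices of finite rank without the
label infinity are in `C`, then all Artin groups are in `C`. The same holds for the groups `Sh M p` with
admissible exponents.

(3) **Partial joins.** Let `κ : B → I` be such that all labels of generators `b`, `c` with `κ b ≠ κ c` are two or
infinity. If the groups of the finite subsets of the classes `{b | κ b = i}` are in `C`, then `Sh M p` is
in `C`, for admissible `p`. (If all these classes have one element, `Sh M p` is a graph product of cyclic
groups; here the graph between the classes is an arbitrary graph on the set of generators.)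

For the conjecture on the `K(π, 1)` spaces, for the torsion and for the word problem a reduction of
all Artin groups to those without the label infinity is due to Ellis and Sköldberg and to Godelle and Paris.

Outline of the proof. The theorem of van der Lek on standard parabolic subgroups holds for the groups
`Sh M p` with admissible exponents (the starting library has the proof, by an action on the product of the
parabolic subgroup and the set of its minimal coset representatives in the Coxeter group). If the label of
`s` and `t` is infinite, then `Sh M p` is the amalgam of the subgroups generated by `B - {s}` and `B - {t}`.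
The homomorphism to the group for which the label of `s` and `t` is replaced by a finite label is injective on
both, since they embed as standard parabolic subgroups there. Now one applies the theorem of the
starting library on amalgamated products with a homomorphism to a group in `C` which is injective on both
factors. Groups of infinite rank are treated as directed colimits, and for (3) all labels between different
classes are first replaced by two.
-/

set_option autoImplicit false

namespace Pool.Agent.Results.MP_490288_al.DeletedRelations

open Pool.Agent.Y110.FJ (ClosedE)
open Pool.Agent.K7.H87.FJ6 (Sh Adm pull)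

/-- the restriction of `M` to a subset of the generators -/
abbrev res {B : Type} (M : CoxeterMatrix B) (F : Set B) : CoxeterMatrix F :=
  pull M (Subtype.val : F → B) Subtype.val_injective

/-- the group of the generators in `F` -/
abbrev ShOn {B : Type} (M : CoxeterMatrix B) (p : B → ℕ) (F : Set B) : Type :=
  Sh (res M F) (fun b => p b)

/-- the Artin group -/
abbrev Artin {B : Type} (M : CoxeterMatrix B) : Type := Sh M (fun _ => 0)

/-- (1) Deleting relations, for arbitrary rank and for finite rank. -/
def Deleting (C : ∀ (G : Type) [Group G], Prop) : Prop :=
  ∀ (B : Type) (M M' : CoxeterMatrix B) (p : B → ℕ), Adm M' p →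
    (∀ i j, M i j = M' i j ∨ M i j = 0) →
    ((∀ F : Set B, F.Finite → C (ShOn M' p F)) ∨ (Finite B ∧ C (Sh M' p))) → C (Sh M p)

/-- (2) Reduction to finite labels. -/
def FiniteLabels (C : ∀ (G : Type) [Group G], Prop) : Prop :=
  ((∀ (n : ℕ) (M : CoxeterMatrix (Fin n)), (∀ i j, M i j ≠ 0) → C (Artin M)) →
    ∀ (B : Type) (M : CoxeterMatrix B), C (Artin M)) ∧
  ((∀ (n : ℕ) (M : CoxeterMatrix (Fin n)) (p : Fin n → ℕ), Adm M p → (∀ i j, M i j ≠ 0) →
      C (Sh M p)) →
    ∀ (B : Type) (M : CoxeterMatrix B) (p : B → ℕ), Adm M p → C (Sh M p))

/-- (3) Partial joins. -/
def PartialJoins (C : ∀ (G : Type) [Group G], Prop) : Prop :=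
  ∀ (B I : Type) (M : CoxeterMatrix B) (p : B → ℕ) (κ : B → I), Adm M p →
    (∀ i j, κ i ≠ κ j → M i j = 2 ∨ M i j = 0) →
    (∀ F : Set B, F.Finite → (∀ i ∈ F, ∀ j ∈ F, κ i = κ j) → C (ShOn M p F)) → C (Sh M p)

/-- a group of finite rank does not depend on the names of the generators -/
theorem rename {C : ∀ (G : Type) [Group G], Prop} (hC : ClosedE C) {B : Type} [Finite B]
    (P : ∀ (n : ℕ) (_ : Fin n → ℕ), Prop) (M : CoxeterMatrix B) (p : B → ℕ) (hA : Adm M p)
    (hM : ∀ i j, M i j ≠ 0)
    (h : ∀ (n : ℕ) (M : CoxeterMatrix (Fin n)) (p : Fin n → ℕ), Adm M p → (∀ i j, M i j ≠ 0) →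
      P n p → C (Sh M p)) (hP : ∀ (n : ℕ) (e : Fin n → B), P n (p ∘ e)) : C (Sh M p) := by
  obtain ⟨n, ⟨e⟩⟩ := Finite.exists_equiv_fin B
  have h1 := h n (pull M e.symm e.symm.injective) (p ∘ e.symm) (hA.pull _ _)
    (fun i j => hM _ _) (hP n e.symm)
  have h2 := Pool.Agent.K7.H87.FJ6.inc_injective
    (M := pull M e.symm e.symm.injective) (p := p ∘ e.symm) (hA.pull _ _) e e.injective
  have h3 := hC.base.of_injective _ _ _ h2 h1
  have e1 : pull (pull M e.symm e.symm.injective) e e.injective = M := by
    ext i j
    change M (e.symm (e i)) (e.symm (e j)) = M i j
    rw [e.symm_apply_apply, e.symm_apply_apply]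
  have e2 : (p ∘ e.symm) ∘ e = p := by
    funext i
    change p (e.symm (e i)) = p i
    rw [e.symm_apply_apply]
  rw [e1, e2] at h3
  exact h3

/-- Let `C` be a class of groups with the closure properties `ClosedE C`. Then (1), (2) and (3) hold. -/
theorem result (C : ∀ (G : Type) [Group G], Prop) (hC : ClosedE C) :
    Deleting C ∧ FiniteLabels C ∧ PartialJoins C := by
  refine ⟨?_, ⟨?_, ?_⟩, ?_⟩
  · rintro B M M' p hA hM (h | ⟨_, h⟩)
    · exact U709.Art.del_all hC hA h M hM
    · exact U709.Art.del hC hA h M hM
  · intro h B M
    have hA : Adm M (fun _ => 0) := ⟨fun _ => Even.zero, fun _ _ _ => rfl⟩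
    have hA2 : Adm (U709.Art.two M) (fun _ => 0) := ⟨fun _ => Even.zero, fun _ _ _ => rfl⟩
    refine U709.Art.del_all hC hA2 (fun F hF => ?_) M ?_
    · have : Finite F := hF
      refine rename hC (fun n p => p = fun _ => 0) (U709.Art.rs (U709.Art.two M) F)
        ((fun _ => 0) ∘ Subtype.val) (hA2.pull _ _) ?_ ?_ ?_
      · intro i j
        change U709.Art.two M i j ≠ 0
        rw [U709.Art.two_apply]
        split_ifs with h0
        · decide
        · exact h0
      · rintro n M' p _ h1 rfl
        exact h n M' h1
      · intro n e
        rfl
    · intro i j
      rw [U709.Art.two_apply]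
      split_ifs with h0
      · exact Or.inr h0
      · exact Or.inl rfl
  · intro h B M p hA
    refine U709.Art.reduction hC ?_ B M p hA
    intro B' _ M' p' hA' hM'
    exact rename hC (fun _ _ => True) M' p' hA' hM' (fun n M p h1 h2 _ => h n M p h1 h2)
      (fun _ _ => trivial)
  · intro B I M p κ hA h2 h
    exact U709.Art.joins hC M p hA κ h2 h

end Pool.Agent.Results.MP_490288_al.DeletedRelations
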