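import Pool.Agent.U722.OG.Fld

/-!
# Orthogonal groups of Witt index one over polynomial rings

`C` is any class of groups with the closure properties `ClosedE C` which contains the solvable groups. All this is
published for the class of the Farrell-Jones groups (see Lück's book and Bunke, Kasprowski and Winges), which also
contains the groups `GL_n(ℚ)` (Rüping). It is open whether all linear groups and all subgroups of Lie groups are
Farrell-Jones groups.

Let `R` be a commutative ring and let `A` be a square matrix over `R`, with the quadratic form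
`q_A(w) = ∑ A i j w_i w_j`. `O_A(R)` is the orthogonal group of the form `v_0 v_1 + q_A(w)`, the
orthogonal sum of a hyperbolic plane and of `q_A`. If `q_A` is anisotropic these are the quadratic forms of Witt
index one. Examples are the Lorentz groups (`q_A` definite over an ordered field), and over fields the groups
related to `PGL_2` of the field, of its quadratic extensions and of quaternion algebras (`q_A` the norm form).

It is open which groups of matrices are in the class. Known are, by Rüping, the groups `GL_n(ℚ)` (so all groups of
matrices over algebraic number fields) and `GL_n(F(t))`, `F` a finite field. For groups of matrices over fields of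
positive transcendence degree over `ℚ`, or of degree at least two over a finite field, nothing general is known.

(1) *Graded rings.* Let `R = R_0 ⊕ R_1 ⊕ ...` be a graded commutative domain and let `q_A` be a form over `R_0`
which is anisotropic over `R`. Then `O_A(R)` is in `C` if and only if `O_A(R_0)` is.

(2) *Polynomial rings.* Let `Q` be a commutative domain and let `q_A` be anisotropic over `Q`. Then
`O_A(Q[x_i : i ∈ σ])` is in `C` if and only if `O_A(Q)` is, for every set `σ` of variables.

(3) *Rings of algebraic elements.* Let `k` be a field such that all `GL_n(k)` are in `C` and let `Q` be a ring with an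
embedding in an algebraic extension of `k`. Then `O_A(Q[x_i : i ∈ σ])` is in `C` for every form `q_A` which is
anisotropic over `Q`. For example (`k = ℚ`) the Lorentz groups `O_{n,1}(ℤ[x_1, ..., x_r])` (the form
`v_0 v_1 + w_1 ^ 2 + ... + w_{n-1} ^ 2`) are in `C` if all `GL_n(ℚ)` are.

(4) If `K` is an algebraic extension of a finite prime field, then `O_A(K[x_i : i ∈ σ])` is in `C` for every
anisotropic `q_A` over `K`.

If `a_1, ..., a_r` are algebraically independent real numbers, then (3) contains the subgroups
`O_{n,1}(ℤ[a_1, ..., a_r])` of the Lie group `O_{n,1}(ℝ)`, which are not discrete.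

Outline of the proof. It suffices to consider subgroups of `O_A(Q[t])`. The degree of the polynomials gives a discrete valuation of the field `F` of fractions of `R`, and
`q_A` is anisotropic over its residue field. The orthogonal group of `v_0 v_1 + q_A(w)` over `F` acts on a tree: the
vertices are the images of the lattice `L_0` of the integral vectors. By the Iwasawa decomposition each vertex has a
representative in the stabilizer `B` of an isotropic line; this gives it a parent (apply `(v_0, v_1, w) ↦
(π⁻¹ v_0, π v_1, w)`) and a level. The decomposition of the stabilizer of `L_0` by the value of one matrix entry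
shows that the neighbours of a vertex are its parent and its children, and the Eichler transformations show that
any two vertices have a common ancestor; so the graph is a tree. The elements of `Γ` which fix a given vertex have entries
of bounded degree, so the congruence subgroup modulo a power of `t` acts without fixed point on the orbit
of the vertex, and the quotients of `Γ` by the congruence subgroups are nilpotent extensions of the image of
`Γ` in `O_A(Q)`, hence in `C`. Now the theorem of the starting library on groups which act on trees and have, for each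
vertex, a homomorphism to a group in `C` which is injective on the stabilizer of the vertex applies. For (1), (2) one
embeds `R` in `R[t]` by `r ↦ r t ^ n` on `R_n`, for example `Q[x_i]` in `Q[x_i][t]` by `x_i ↦ x_i t`; that `q_A` stays anisotropic over `Q[x_i]` follows by comparing
leading monomials.
-/

set_option autoImplicit false

namespace Pool.Agent.Results.MP_490288_al.OrthogonalGroups

open Matrix
open Pool.Agent.Y110.FJ (ClosedE)

/-- the quadratic form `q_A(w) = ∑ A i j w_i w_j` -/
def form {R : Type} [CommRing R] {m : ℕ} (A : Matrix (Fin m) (Fin m) R) (w : Fin m → R) : R :=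
  ∑ i, ∑ j, A i j * w i * w j

/-- the form `v_0 v_1 + q_A(w)` on `R ^ (2 + m)` -/
def hyp {R : Type} [CommRing R] {m : ℕ} (A : Matrix (Fin m) (Fin m) R)
    (v : Fin 2 ⊕ Fin m → R) : R :=
  v (Sum.inl 0) * v (Sum.inl 1) + form A (fun i => v (Sum.inr i))

/-- the invertible matrices of degree `2 + m` -/
def GLm (m : ℕ) (R : Type) [CommRing R] : Type := GL (Fin 2 ⊕ Fin m) R

instance (m : ℕ) (R : Type) [CommRing R] : Group (GLm m R) :=
  @Units.instGroup (Matrix (Fin 2 ⊕ Fin m) (Fin 2 ⊕ Fin m) R) _

/-- the matrix -/
def GLm.mat {m : ℕ} {R : Type} [CommRing R] (g : GLm m R) :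
    Matrix (Fin 2 ⊕ Fin m) (Fin 2 ⊕ Fin m) R := Units.val (α := Matrix (Fin 2 ⊕ Fin m) _ R) g

/-- the orthogonal group of the form `v_0 v_1 + q_A(w)` -/
def OG {R : Type} [CommRing R] {m : ℕ} (A : Matrix (Fin m) (Fin m) R) : Subgroup (GLm m R) where
  carrier := {g | ∀ v, hyp A (g.mat *ᵥ v) = hyp A v}
  one_mem' := fun v => by
    change hyp A ((1 : Matrix (Fin 2 ⊕ Fin m) (Fin 2 ⊕ Fin m) R) *ᵥ v) = _
    rw [Matrix.one_mulVec]
  mul_mem' := by
    intro g h hg hh v
    change hyp A ((g.mat * h.mat) *ᵥ v) = _
    rw [← Matrix.mulVec_mulVec, hg, hh]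
  inv_mem' := by
    intro g hg v
    have h1 := hg (g⁻¹.mat *ᵥ v)
    have h2 : g.mat * g⁻¹.mat = 1 := Units.mul_inv (α := Matrix (Fin 2 ⊕ Fin m) _ R) g
    rw [Matrix.mulVec_mulVec, h2, Matrix.one_mulVec] at h1
    exact h1.symm

/-- the orthogonal group `O_A(R)` of the form `v_0 v_1 + q_A(w)`, as a group -/
def O {R : Type} [CommRing R] {m : ℕ} (A : Matrix (Fin m) (Fin m) R) : Type := ↥(OG A)

instance {R : Type} [CommRing R] {m : ℕ} (A : Matrix (Fin m) (Fin m) R) : Group (O A) :=
  (OG A).toGroup

/-- the form over the polynomial ring in the variables `σ` -/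
noncomputable def overPoly (σ : Type) {R : Type} [CommRing R] {m : ℕ}
    (A : Matrix (Fin m) (Fin m) R) : Matrix (Fin m) (Fin m) (MvPolynomial σ R) :=
  A.map MvPolynomial.C

/-- the subring of the elements of degree zero of a graded ring -/
def degZero {R : Type} [CommRing R] (𝒜 : ℕ → AddSubgroup R) [GradedRing 𝒜] : Subring R :=
  SetLike.GradeZero.subring 𝒜

/-- a form over a subring as a form over the ring -/
def overRing {R : Type} [CommRing R] (Z : Subring R) {m : ℕ} (A : Matrix (Fin m) (Fin m) Z) :
    Matrix (Fin m) (Fin m) R := A.map Subtype.val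

/-- `q_A` is anisotropic -/
def Anisotropic {R : Type} [CommRing R] {m : ℕ} (A : Matrix (Fin m) (Fin m) R) : Prop :=
  ∀ w : Fin m → R, form A w = 0 → w = 0

/-- (1) Graded domains. -/
def GradedDomains (C : ∀ (G : Type) [Group G], Prop) : Prop :=
  ∀ (R : Type) [CommRing R] [IsDomain R] (𝒜 : ℕ → AddSubgroup R) [GradedRing 𝒜] (m : ℕ)
    (A : Matrix (Fin m) (Fin m) (degZero 𝒜)), Anisotropic (overRing (degZero 𝒜) A) →
    (C (O (overRing (degZero 𝒜) A)) ↔ C (O A))

/-- (2) Polynomial rings over domains. -/
def PolynomialRings (C : ∀ (G : Type) [Group G], Prop) : Prop :=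
  ∀ (σ Q : Type) [CommRing Q] [IsDomain Q] (m : ℕ) (A : Matrix (Fin m) (Fin m) Q), Anisotropic A →
    (C (O (overPoly σ A)) ↔ C (O A))

/-- (3) Polynomial rings over rings of elements which are algebraic over `k`. -/
def AlgebraicElements (C : ∀ (G : Type) [Group G], Prop) : Prop :=
  ∀ (k : Type) [Field k], (∀ n : ℕ, C (GL (Fin n) k)) →
    ∀ (K : Type) [Field K] [Algebra k K] [Algebra.IsAlgebraic k K] (Q : Type) [CommRing Q]
      (ι : Q →+* K), Function.Injective ι → ∀ (σ : Type) (m : ℕ) (A : Matrix (Fin m) (Fin m) Q),
        Anisotropic A → C (O (overPoly σ A))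

/-- (4) Algebraic extensions of finite prime fields. -/
def FinitePrimeFields (C : ∀ (G : Type) [Group G], Prop) : Prop :=
  ∀ (p : ℕ) [Fact p.Prime] (K : Type) [Field K] [Algebra (ZMod p) K]
    [Algebra.IsAlgebraic (ZMod p) K] (σ : Type) (m : ℕ) (A : Matrix (Fin m) (Fin m) K),
    Anisotropic A → C (O (overPoly σ A))

/-- Let `C` be a class of groups with the closure properties `ClosedE C` which contains the solvable
groups. Then (1) - (4) above hold. -/
theorem result (C : ∀ (G : Type) [Group G], Prop) (hC : ClosedE C)
    (hS : ∀ (G : Type) [Group G], Group.IsSolvable G → C G) :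
    GradedDomains C ∧ PolynomialRings C ∧ AlgebraicElements C ∧ FinitePrimeFields C := by
  refine ⟨fun R _ _ 𝒜 _ m A hA => U722.OG.graded 𝒜 hC hS A hA,
    fun σ Q _ _ m A hA => U722.OG.mv hC hS σ Q hA,
    fun k _ hk K _ _ _ Q _ ι hι σ m A hA => ?_,
    fun p _ K _ _ _ σ m A hA => U722.OG.alg hC hS (k := ZMod p) (U709.fin_field hC (ZMod p)) K σ hA⟩
  have : IsDomain Q := hι.isDomain ι
  exact (U722.OG.mv hC hS σ Q hA).2 (U722.OG.incl hC ι hι
    (U722.OG.orth_sub hC _ (U722.OG.gl_fin hC (U293.GE.GL_alg (F := k) (K := K) hC hk) K)))

end Pool.Agent.Results.MP_490288_al.OrthogonalGroups
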